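import Pool.Agent.Helper88.EL.Assemble

set_option autoImplicit false

open LaurentPolynomial Matrix

namespace Pool.Agent.Results.MP_287ff4_al.ElementaryProducts

/-- The matrix of a product in the special linear group. -/
theorem coe_list_prod (l : List (Matrix.SpecialLinearGroup (Fin 2) ℤ[T;T⁻¹])) :
    (l.map (fun y : Matrix.SpecialLinearGroup (Fin 2) ℤ[T;T⁻¹] =>
      (y : Matrix (Fin 2) (Fin 2) ℤ[T;T⁻¹]))).prod =
      ((l.prod : Matrix.SpecialLinearGroup (Fin 2) ℤ[T;T⁻¹]) :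
        Matrix (Fin 2) (Fin 2) ℤ[T;T⁻¹]) := by
  induction l with
  | nil => simp
  | cons y l ih => rw [List.map_cons, List.prod_cons, List.prod_cons, ih,
      Matrix.SpecialLinearGroup.coe_mul]

/-- The case of determinant one. -/
theorem det_one (N : Matrix.SpecialLinearGroup (Fin 2) ℤ[T;T⁻¹]) :
    ∃ L : List (Matrix (Fin 2) (Fin 2) ℤ[T;T⁻¹]),
      (∀ E ∈ L, ∃ (i j : Fin 2) (a : ℤ[T;T⁻¹]), i ≠ j ∧ E = Matrix.transvection i j a) ∧
        (N : Matrix (Fin 2) (Fin 2) ℤ[T;T⁻¹]) = L.prod := by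
  have h := Pool.Agent.Helper88.EL.main N
  rw [← Subgroup.mem_toSubmonoid, Subgroup.closure_toSubmonoid] at h
  obtain ⟨l, hl, hprod⟩ := Submonoid.exists_list_of_mem_closure h
  refine ⟨l.map (fun y : Matrix.SpecialLinearGroup (Fin 2) ℤ[T;T⁻¹] =>
      (y : Matrix (Fin 2) (Fin 2) ℤ[T;T⁻¹])), ?_, ?_⟩
  · intro E hE
    obtain ⟨y, hy, rfl⟩ := List.mem_map.1 hE
    rcases hl y hy with ⟨i, j, c, hij, hc⟩ | ⟨i, j, c, hij, hc⟩
    · exact ⟨i, j, c, hij, hc⟩
    · refine ⟨i, j, -c, hij, ?_⟩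
      have h2 : (y : Matrix (Fin 2) (Fin 2) ℤ[T;T⁻¹]) * Matrix.transvection i j c = 1 := by
        rw [← hc, ← Matrix.SpecialLinearGroup.coe_mul, mul_inv_cancel,
          Matrix.SpecialLinearGroup.coe_one]
      have h3 : Matrix.transvection i j c * Matrix.transvection i j (-c) = 1 := by
        rw [Matrix.transvection_mul_transvection_same _ _ hij]
        simp
      calc (y : Matrix (Fin 2) (Fin 2) ℤ[T;T⁻¹])
          = y * (Matrix.transvection i j c * Matrix.transvection i j (-c)) := by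
            rw [h3, mul_one]
        _ = Matrix.transvection i j (-c) := by rw [← mul_assoc, h2, one_mul]
  · rw [coe_list_prod, hprod]

/-- A 2 × 2 matrix `M` over `ℤ[x, x⁻¹]` with invertible determinant is the product of
`diag(det M, 1)` and of finitely many elementary matrices `1 + a e_{ij}`, `i ≠ j`.
In particular `SL₂(ℤ[x, x⁻¹]) = E₂(ℤ[x, x⁻¹])`. -/
theorem result (M : Matrix (Fin 2) (Fin 2) ℤ[T;T⁻¹]) (hM : IsUnit M.det) :
    ∃ L : List (Matrix (Fin 2) (Fin 2) ℤ[T;T⁻¹]),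
      (∀ E ∈ L, ∃ (i j : Fin 2) (a : ℤ[T;T⁻¹]), i ≠ j ∧ E = Matrix.transvection i j a) ∧
        M = Matrix.diagonal ![M.det, 1] * L.prod := by
  obtain ⟨d, hd⟩ := hM
  have h1 : (Matrix.diagonal ![(↑d⁻¹ : ℤ[T;T⁻¹]), 1] * M).det = 1 := by
    rw [Matrix.det_mul, Matrix.det_diagonal, ← hd]
    simp
  obtain ⟨L, hL, hprod⟩ := det_one ⟨_, h1⟩
  refine ⟨L, hL, ?_⟩
  have h2 : Matrix.diagonal ![(↑d⁻¹ : ℤ[T;T⁻¹]), 1] * M = L.prod := hprod
  have h3 : Matrix.diagonal ![M.det, 1] * Matrix.diagonal ![(↑d⁻¹ : ℤ[T;T⁻¹]), 1] = 1 := by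
    rw [← hd, Matrix.diagonal_mul_diagonal, ← Matrix.diagonal_one]
    congr 1
    funext i
    fin_cases i <;> simp
  rw [← h2, ← mul_assoc, h3, one_mul]

end Pool.Agent.Results.MP_287ff4_al.ElementaryProducts
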